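import Pool.Agent.V7H93.Hyp.Count

/-!
# Zero count of radial Emden-Fowler solutions on hyperbolic space

For every `n ≥ 2` and every `p > 1` (in particular every subcritical `p`), the number of zeros in
`(0,∞)` of the solution of
`u'' + (n-1) coth(r) u' + |u|^(p-1) u = 0`, `u(0) = α > 0`, `u'(0) = 0`,
is a nondecreasing function of `α`.
-/

set_option autoImplicit false

namespace Pool.Agent.Results.MP_815fa1_an.ZeroCountMonotoneH93

open Set Filter Topology

/-- `u` (considered on `[0,∞)`) is a solution of the radial initial value problem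
`u'' + (n-1) coth(r) u' + |u|^(p-1) u = 0` for `r > 0`, `u(0) = α`, `u'(0) = 0`:
it is twice differentiable on `(0,∞)`, satisfies the equation there, and is `C¹` up to `0`
with `u(0) = α` and `u'(0) = 0`. -/
structure IsRadialSol (n : ℕ) (p α : ℝ) (u : ℝ → ℝ) : Prop where
  /-- initial value -/
  init : u 0 = α
  /-- one-sided derivative at `0` (in particular `u` is continuous at `0` from the right) -/
  init_deriv : HasDerivWithinAt u 0 (Ici 0) 0
  /-- the derivative is continuous at `0` -/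
  deriv_tendsto : Tendsto (deriv u) (𝓝[>] 0) (𝓝 0)
  /-- differentiability -/
  diff : ∀ r, 0 < r → DifferentiableAt ℝ u r
  /-- twice differentiability -/
  diff2 : ∀ r, 0 < r → DifferentiableAt ℝ (deriv u) r
  /-- the equation -/
  ode : ∀ r, 0 < r → deriv (deriv u) r + ((n : ℝ) - 1) * (Real.cosh r / Real.sinh r) * deriv u r
    + |u r| ^ (p - 1) * u r = 0

/-- The zeros of `u` in `(0,∞)`. -/
def zeros (u : ℝ → ℝ) : Set ℝ := {r | 0 < r ∧ u r = 0}

open Pool.Agent.V7H93.Hyp in
theorem IsRadialSol.toSol {n : ℕ} (hn : 2 ≤ n) {p α : ℝ} {u : ℝ → ℝ} (h : IsRadialSol n p α u) :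
    Sol (n - 1) (fun _ v => f p v) α u (fun r => if r ≤ 0 then 0 else deriv u r) where
  u0 := h.init
  du0 := by simp
  cu := by
    intro r hr
    rcases (show (0 : ℝ) ≤ r from hr).eq_or_lt with rfl | hr
    · exact h.init_deriv.continuousWithinAt
    · exact (h.diff r hr).continuousAt.continuousWithinAt
  cdu := by
    intro r hr
    rcases (show (0 : ℝ) ≤ r from hr).eq_or_lt with rfl | hr
    · rw [← Ioi_insert, continuousWithinAt_insert_self]
      have h1 : Tendsto (fun r => if r ≤ 0 then 0 else deriv u r) (𝓝[>] (0 : ℝ)) (𝓝 0) := by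
        refine h.deriv_tendsto.congr' ?_
        filter_upwards [self_mem_nhdsWithin] with s hs
        rw [if_neg (not_le.2 hs)]
      simpa [ContinuousWithinAt] using h1
    · refine ContinuousAt.continuousWithinAt ?_
      refine (h.diff2 r hr).continuousAt.congr ?_
      filter_upwards [lt_mem_nhds hr] with s hs
      rw [if_neg (not_le.2 hs)]
  hu r hr := by
    rw [if_neg (not_le.2 hr)]
    exact (h.diff r hr).hasDerivAt
  hdu r hr := by
    have h1 : HasDerivAt (fun r => if r ≤ 0 then 0 else deriv u r) (deriv (deriv u) r) r := by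
      refine (h.diff2 r hr).hasDerivAt.congr_of_eventuallyEq ?_
      filter_upwards [lt_mem_nhds hr] with s hs
      rw [if_neg (not_le.2 hs)]
    refine h1.congr_deriv ?_
    rw [if_neg (not_le.2 hr)]
    have h2 := h.ode r hr
    have h3 : (((n - 1 : ℕ) : ℕ) : ℝ) = (n : ℝ) - 1 := by
      rw [Nat.cast_sub (by omega)]; simp
    unfold q f
    rw [h3]
    linarith

open Pool.Agent.V7H93.Hyp in
theorem ofSol {n : ℕ} (hn : 2 ≤ n) {p α : ℝ} {u du : ℝ → ℝ}
    (h : Sol (n - 1) (fun _ v => f p v) α u du) : IsRadialSol n p α u := by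
  have hd : ∀ r, 0 < r → deriv u r = du r := fun r hr => (h.hu r hr).deriv
  have ht : Tendsto (deriv u) (𝓝[>] 0) (𝓝 0) := by
    have h1 := lim0 h.cdu
    rw [h.du0] at h1
    refine h1.congr' ?_
    filter_upwards [self_mem_nhdsWithin] with s hs
    exact (hd s hs).symm
  have hdd : ∀ r, 0 < r →
      HasDerivAt (deriv u) (-(q (n - 1) r) * du r - f p (u r)) r := by
    intro r hr
    refine (h.hdu r hr).congr_of_eventuallyEq ?_
    filter_upwards [lt_mem_nhds hr] with s hs
    exact hd s hs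
  refine ⟨h.u0, ?_, ht, fun r hr => (h.hu r hr).differentiableAt,
    fun r hr => (hdd r hr).differentiableAt, fun r hr => ?_⟩
  · refine hasDerivWithinAt_Ici_of_tendsto_deriv (s := Ioi 0)
      (fun r hr => (h.hu r hr).differentiableAt.differentiableWithinAt) ?_ self_mem_nhdsWithin ht
    exact (h.cu 0 (mem_Ici.2 le_rfl)).mono Ioi_subset_Ici_self
  · rw [(hdd r hr).deriv, hd r hr]
    have h3 : (((n - 1 : ℕ) : ℕ) : ℝ) = (n : ℝ) - 1 := by
      rw [Nat.cast_sub (by omega)]; simp
    unfold q f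
    rw [h3]
    ring

open Pool.Agent.V7H93.Hyp in
/-- **Main theorem.** Let `n ≥ 2` and `p > 1`.
(1) for each `α > 0` the initial value problem has a solution on `[0,∞)`, unique there;
(2) for `0 < α < β` with solutions `u`, `v`, the number of zeros of `u` in `(0,∞)` is at most the
number of zeros of `v` in `(0,∞)`;
(3) moreover there is a strictly increasing map from the zeros of `u` to the zeros of `v` that moves
every zero strictly to the left. -/
theorem result (n : ℕ) (hn : 2 ≤ n) (p : ℝ) (hp : 1 < p) :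
    (∀ α : ℝ, 0 < α → ∃ u : ℝ → ℝ, IsRadialSol n p α u ∧
      ∀ v : ℝ → ℝ, IsRadialSol n p α v → ∀ r, 0 ≤ r → v r = u r) ∧
    (∀ α β : ℝ, 0 < α → α < β → ∀ u v : ℝ → ℝ, IsRadialSol n p α u → IsRadialSol n p β v →
      (zeros u).encard ≤ (zeros v).encard ∧
      ∃ Φ : ℝ → ℝ, StrictMonoOn Φ (zeros u) ∧ ∀ z ∈ zeros u, Φ z ∈ zeros v ∧ Φ z < z) := by
  have hk : 1 ≤ n - 1 := by omega
  refine ⟨fun α hα => ?_, fun α β hα hαβ u v hu hv => ?_⟩
  · obtain ⟨u, du, hu⟩ := exists_pow hk hp hα
    refine ⟨u, ofSol hn hu, fun v hv r hr => ?_⟩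
    exact (uniq hk hp (hv.toSol hn) hu hr).1
  · obtain ⟨Φ, h1, h2⟩ := count hk hp hα hαβ (hu.toSol hn) (hv.toSol hn)
    refine ⟨Set.encard_le_encard_of_injOn (f := Φ) (fun z hz => ?_) h1.injOn, Φ, h1,
      fun z hz => ?_⟩
    · obtain ⟨a, b, c⟩ := h2 z hz.1 hz.2
      exact ⟨a, c⟩
    · obtain ⟨a, b, c⟩ := h2 z hz.1 hz.2
      exact ⟨⟨a, c⟩, b⟩

end Pool.Agent.Results.MP_815fa1_an.ZeroCountMonotoneH93
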